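import Pool.Agent.H6.G3.Circ
import Pool.Agent.TH.Osg

/-!
# G3 Cheb: analyticity in a real parameter propagates

`F : ℝ → ℂ → ℂ` is continuous on `[a, b] × U`, holomorphic in the second variable.  If `s ↦ F s z` extends to a
bounded holomorphic function on a fixed neighbourhood of `[a, b]` for all `z` in one small disc, then the same is true
near every point of the preconnected open set `U` (`cheb_ext`).  The extension is the Chebyshev series of `F`;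
the coefficients are holomorphic in `z` and decay geometrically near one point, hence near all points
(three circles).  `ext_unique`: uniqueness of extensions.
-/

set_option autoImplicit false

open Set Metric Filter Topology MeasureTheory

namespace Pool.Agent.H6G3

/-- the complex neighbourhood of radius `d` of the real interval `[a, b]` -/
def Nb (a b d : ℝ) : Set ℂ := {s : ℂ | infDist s ((fun x : ℝ => (x : ℂ)) '' Icc a b) < d}

theorem Nb_mono {a b d d' : ℝ} (h : d ≤ d') : Nb a b d ⊆ Nb a b d' := fun _ hs => lt_of_lt_of_le hs h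

theorem Nb_open (a b d : ℝ) : IsOpen (Nb a b d) := isOpen_lt (continuous_infDist_pt _) continuous_const

theorem mem_Nb {a b d : ℝ} (hab : a ≤ b) {s : ℂ} : s ∈ Nb a b d ↔ ∃ x ∈ Icc a b, dist s (x : ℂ) < d := by
  have hne : ((fun x : ℝ => (x : ℂ)) '' Icc a b).Nonempty := ⟨_, a, left_mem_Icc.2 hab, rfl⟩
  unfold Nb
  rw [Set.mem_ofPred_eq, infDist_lt_iff hne]
  constructor
  · rintro ⟨_, ⟨x, hx, rfl⟩, h⟩
    exact ⟨x, hx, h⟩
  · rintro ⟨x, hx, h⟩
    exact ⟨_, ⟨x, hx, rfl⟩, h⟩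

theorem ofReal_mem_Nb {a b d : ℝ} (hd : 0 < d) {x : ℝ} (hx : x ∈ Icc a b) : (x : ℂ) ∈ Nb a b d :=
  (mem_Nb (hx.1.trans hx.2)).2 ⟨x, hx, by rw [dist_self]; exact hd⟩

theorem Nb_convex {a b d : ℝ} (hab : a ≤ b) : Convex ℝ (Nb a b d) := by
  intro s hs t ht α β hα hβ hαβ
  rw [mem_Nb hab] at hs ht ⊢
  obtain ⟨x, hx, hsx⟩ := hs
  obtain ⟨y, hy, hty⟩ := ht
  refine ⟨α * x + β * y, (convex_Icc a b) hx hy hα hβ hαβ, ?_⟩
  have e : α • s + β • t - ((α * x + β * y : ℝ) : ℂ) = (α : ℂ) * (s - x) + (β : ℂ) * (t - y) := by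
    rw [Complex.real_smul, Complex.real_smul]
    push_cast
    ring
  rw [dist_eq_norm] at hsx hty ⊢
  rw [e]
  calc ‖(α : ℂ) * (s - x) + (β : ℂ) * (t - y)‖ ≤ ‖(α : ℂ) * (s - x)‖ + ‖(β : ℂ) * (t - y)‖ := norm_add_le _ _
    _ = α * ‖s - x‖ + β * ‖t - y‖ := by
        rw [norm_mul, norm_mul, Complex.norm_real, Complex.norm_real, Real.norm_of_nonneg hα, Real.norm_of_nonneg hβ]
    _ < d := by
        rcases eq_or_lt_of_le hα with h0 | h0
        · have hβ1 : β = 1 := by linarith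
          rw [← h0, hβ1]
          linarith
        · have h1 : α * ‖s - x‖ < α * d := mul_lt_mul_of_pos_left hsx h0
          have h2 : β * ‖t - y‖ ≤ β * d := mul_le_mul_of_nonneg_left hty.le hβ
          have h3 : α * d + β * d = d := by rw [← add_mul, hαβ, one_mul]
          linarith

/-- uniqueness of holomorphic extensions from the real interval -/
theorem ext_unique {a b d : ℝ} (hab : a < b) (hd : 0 < d) {g₁ g₂ : ℂ → ℂ} (h₁ : DifferentiableOn ℂ g₁ (Nb a b d))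
    (h₂ : DifferentiableOn ℂ g₂ (Nb a b d)) (h : ∀ x ∈ Icc a b, g₁ (x : ℂ) = g₂ (x : ℂ)) : EqOn g₁ g₂ (Nb a b d) := by
  have ha : (a : ℂ) ∈ Nb a b d := ofReal_mem_Nb hd (left_mem_Icc.2 hab.le)
  refine AnalyticOnNhd.eqOn_of_preconnected_of_frequently_eq (z₀ := (a : ℂ))
    (h₁.analyticOnNhd (Nb_open a b d)) (h₂.analyticOnNhd (Nb_open a b d)) (Nb_convex hab.le).isPreconnected ha ?_
  -- the points `a + 1/n`
  obtain ⟨x, hx⟩ : ∃ x : ℕ → ℝ, x = fun n : ℕ => a + (b - a) / ((n : ℝ) + 1) := ⟨_, rfl⟩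
  have hxI : ∀ n, x n ∈ Icc a b ∧ x n ≠ a := by
    intro n
    rw [hx]
    have h0 : (0 : ℝ) < (b - a) / ((n : ℝ) + 1) := div_pos (by linarith) (by positivity)
    have h1 : (b - a) / ((n : ℝ) + 1) ≤ b - a := by
      rw [div_le_iff₀ (by positivity)]
      have : (0 : ℝ) ≤ n := Nat.cast_nonneg n
      nlinarith
    refine ⟨⟨?_, ?_⟩, ?_⟩
    · show a ≤ a + (b - a) / ((n : ℝ) + 1)
      linarith
    · show a + (b - a) / ((n : ℝ) + 1) ≤ b
      linarith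
    · show a + (b - a) / ((n : ℝ) + 1) ≠ a
      linarith
  have hlim : Tendsto (fun n => ((x n : ℝ) : ℂ)) atTop (𝓝[≠] (a : ℂ)) := by
    rw [tendsto_nhdsWithin_iff]
    refine ⟨?_, Eventually.of_forall fun n => ?_⟩
    · have h1 : Tendsto x atTop (𝓝 (a + 0)) := by
        rw [hx]
        refine tendsto_const_nhds.add ?_
        exact Tendsto.const_div_atTop (tendsto_atTop_add_const_right _ _ tendsto_natCast_atTop_atTop) _
      rw [add_zero] at h1
      exact (Complex.continuous_ofReal.tendsto a).comp h1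
    · exact fun e => (hxI n).2 (Complex.ofReal_injective e)
  exact hlim.frequently (Frequently.of_forall fun n => h _ (hxI n).1)

/-- the Chebyshev coefficients -/
noncomputable def cc (F : ℝ → ℂ → ℂ) (n : ℤ) (z : ℂ) : ℂ :=
  (2 * Real.pi : ℝ)⁻¹ * ∫ x in (0 : ℝ)..(2 * Real.pi), Complex.exp (-(n * x * Complex.I)) * F (Real.cos x) z

theorem cc_diff {F : ℝ → ℂ → ℂ} {U : Set ℂ} (hU : IsOpen U)
    (hc : ContinuousOn (fun p : ℝ × ℂ => F p.1 p.2) (Icc (-1) 1 ×ˢ U))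
    (hd : ∀ s ∈ Icc (-1 : ℝ) 1, DifferentiableOn ℂ (F s) U) (n : ℤ) : DifferentiableOn ℂ (cc F n) U := by
  unfold cc
  refine DifferentiableOn.const_mul ?_ _
  refine differentiableOn_parInt (F := fun x z => Complex.exp (-(n * x * Complex.I)) * F (Real.cos x) z)
    (by positivity) hU ?_ ?_
  · refine ContinuousOn.mul (Continuous.continuousOn (by fun_prop)) ?_
    refine ContinuousOn.comp (f := fun p : ℝ × ℂ => (Real.cos p.1, p.2)) hc
      (Continuous.continuousOn (by fun_prop)) ?_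
    rintro ⟨x, z⟩ ⟨-, hz⟩
    exact ⟨⟨Real.neg_one_le_cos x, Real.cos_le_one x⟩, hz⟩
  · intro x _
    exact (hd _ ⟨Real.neg_one_le_cos x, Real.cos_le_one x⟩).const_mul _

theorem cc_bound {F : ℝ → ℂ → ℂ} {z : ℂ} {M : ℝ} (hM : ∀ s ∈ Icc (-1 : ℝ) 1, ‖F s z‖ ≤ M) (n : ℤ) :
    ‖cc F n z‖ ≤ M := by
  unfold cc
  have h : ‖∫ x in (0 : ℝ)..(2 * Real.pi), Complex.exp (-(n * x * Complex.I)) * F (Real.cos x) z‖ ≤
      M * |2 * Real.pi - 0| := by
    refine intervalIntegral.norm_integral_le_of_norm_le_const fun x _ => ?_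
    rw [norm_mul]
    have e : ‖Complex.exp (-(n * x * Complex.I))‖ = 1 := by
      have : -((n : ℂ) * x * Complex.I) = ((-(n * x) : ℝ) : ℂ) * Complex.I := by push_cast; ring
      rw [this, Complex.norm_exp_ofReal_mul_I]
    rw [e, one_mul]
    exact hM _ ⟨Real.neg_one_le_cos x, Real.cos_le_one x⟩
  rw [norm_mul, Complex.norm_real, Real.norm_of_nonneg (by positivity)]
  rw [sub_zero, abs_of_pos Real.two_pi_pos] at h
  calc (2 * Real.pi)⁻¹ * ‖∫ x in (0 : ℝ)..(2 * Real.pi), Complex.exp (-(n * x * Complex.I)) * F (Real.cos x) z‖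
      ≤ (2 * Real.pi)⁻¹ * (M * (2 * Real.pi)) := by gcongr
    _ = M := by
        have := Real.two_pi_pos.ne'
        field_simp

theorem cc_neg (F : ℝ → ℂ → ℂ) (n : ℤ) (z : ℂ) : cc F (-n) z = cc F n z := by
  unfold cc
  congr 1
  have h := intervalIntegral.integral_comp_sub_left
    (fun x : ℝ => Complex.exp (-(n * x * Complex.I)) * F (Real.cos x) z) (2 * Real.pi) (a := 0) (b := 2 * Real.pi)
  rw [sub_zero, sub_self] at h
  rw [← h]
  refine intervalIntegral.integral_congr fun x _ => ?_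
  show Complex.exp (-(((-n : ℤ) : ℂ) * x * Complex.I)) * F (Real.cos x) z =
    Complex.exp (-(n * ((2 * Real.pi - x : ℝ) : ℂ) * Complex.I)) * F (Real.cos (2 * Real.pi - x)) z
  rw [Real.cos_two_pi_sub]
  congr 1
  have e : -((n : ℂ) * ((2 * Real.pi - x : ℝ) : ℂ) * Complex.I) =
      -(((-n : ℤ) : ℂ) * x * Complex.I) + ((-n : ℤ) : ℂ) * (2 * Real.pi * Complex.I) := by
    push_cast
    ring
  rw [e, Complex.exp_add, Complex.exp_int_mul_two_pi_mul_I, mul_one]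

/-- the Joukowski map sends the annulus `1 ≤ |w| ≤ 1 + d/2` into the neighbourhood of `[-1, 1]` -/
theorem jouk_mem {w : ℂ} {d : ℝ} (hd : 0 < d) (h1 : 1 ≤ ‖w‖) (h2 : ‖w‖ ≤ 1 + d / 2) :
    (w + w⁻¹) / 2 ∈ Nb (-1) 1 d := by
  rw [mem_Nb (by norm_num)]
  have hw0 : w ≠ 0 := by
    intro h
    rw [h, norm_zero] at h1
    linarith
  have hn0 : (0 : ℝ) < ‖w‖ := by linarith
  obtain ⟨φ, hφ⟩ : ∃ φ : ℝ, φ = w.arg := ⟨_, rfl⟩
  have hw : w = (‖w‖ : ℂ) * Complex.exp (φ * Complex.I) := by rw [hφ, Complex.norm_mul_exp_arg_mul_I]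
  refine ⟨Real.cos φ, ⟨Real.neg_one_le_cos φ, Real.cos_le_one φ⟩, ?_⟩
  obtain ⟨e, he⟩ : ∃ e : ℂ, e = Complex.exp (φ * Complex.I) := ⟨_, rfl⟩
  have hen : ‖e‖ = 1 := by rw [he, Complex.norm_exp_ofReal_mul_I]
  have he0 : e ≠ 0 := by
    intro h
    rw [h, norm_zero] at hen
    norm_num at hen
  have hcos : ((Real.cos φ : ℝ) : ℂ) = (e + e⁻¹) / 2 := by
    rw [Complex.ofReal_cos, Complex.cos, he, ← Complex.exp_neg, neg_mul]
  rw [← he] at hw
  have hwi : w⁻¹ = (‖w‖ : ℂ)⁻¹ * e⁻¹ := by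
    conv_lhs => rw [hw]
    rw [mul_inv]
  have hdiff : (w + w⁻¹) / 2 - (e + e⁻¹) / 2 = (((‖w‖ - 1 : ℝ) : ℂ) * e + ((‖w‖⁻¹ - 1 : ℝ) : ℂ) * e⁻¹) / 2 := by
    rw [hwi]
    conv_lhs => rw [hw]
    push_cast
    ring_nf
    rw [show ‖(‖w‖ : ℂ) * e‖ = ‖w‖ by rw [norm_mul, hen, mul_one, Complex.norm_real, norm_norm]]
    ring
  rw [dist_eq_norm, hcos, hdiff, norm_div, Complex.norm_ofNat]
  have h3 : ‖((‖w‖ - 1 : ℝ) : ℂ) * e + ((‖w‖⁻¹ - 1 : ℝ) : ℂ) * e⁻¹‖ ≤ (‖w‖ - 1) + (1 - ‖w‖⁻¹) := by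
    refine (norm_add_le _ _).trans ?_
    rw [norm_mul, norm_mul, norm_inv, hen, Complex.norm_real, Complex.norm_real, Real.norm_eq_abs, Real.norm_eq_abs,
      abs_of_nonneg (by linarith), abs_of_nonpos (by linarith [inv_le_one_of_one_le₀ h1])]
    linarith
  have h4 : 1 - ‖w‖⁻¹ ≤ ‖w‖ - 1 := by
    have h5 : ‖w‖ * ‖w‖⁻¹ = 1 := mul_inv_cancel₀ hn0.ne'
    have h6 : 0 < ‖w‖⁻¹ := inv_pos.2 hn0
    nlinarith [sq_nonneg (‖w‖ - 1)]
  linarith

/-- geometric decay of the coefficients of a holomorphic function -/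
theorem cc_decay {F : ℝ → ℂ → ℂ} {z : ℂ} {d M : ℝ} (hd : 0 < d) {g : ℂ → ℂ}
    (hg : DifferentiableOn ℂ g (Nb (-1) 1 d)) (hgM : ∀ s ∈ Nb (-1) 1 d, ‖g s‖ ≤ M)
    (hgF : ∀ s ∈ Icc (-1 : ℝ) 1, g (s : ℂ) = F s z) (n : ℤ) : ‖cc F n z‖ ≤ M * ((1 + d / 2)⁻¹) ^ n.natAbs := by
  -- reduction to `n ≥ 0`
  wlog hn : 0 ≤ n generalizing n
  · have h := this (-n) (by omega)
    rwa [cc_neg, Int.natAbs_neg] at h
  obtain ⟨k, rfl⟩ := Int.eq_ofNat_of_zero_le hn
  rw [Int.natAbs_natCast]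
  obtain ⟨q, hq⟩ : ∃ q : ℝ, q = 1 + d / 2 := ⟨_, rfl⟩
  have hq1 : 1 < q := by rw [hq]; linarith
  have hq0 : 0 < q := by linarith
  rw [← hq]
  obtain ⟨h, hh⟩ : ∃ h : ℂ → ℂ, h = fun w => (w⁻¹) ^ k * g ((w + w⁻¹) / 2) := ⟨_, rfl⟩
  have hmem : ∀ w : ℂ, 1 ≤ ‖w‖ → ‖w‖ ≤ q → (w + w⁻¹) / 2 ∈ Nb (-1) 1 d := fun w h1 h2 =>
    jouk_mem hd h1 (by rw [← hq]; exact h2)
  have hdiff : ∀ w : ℂ, 1 ≤ ‖w‖ → ‖w‖ ≤ q → DifferentiableAt ℂ h w := by
    intro w h1 h2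
    have hw0 : w ≠ 0 := by
      intro e
      rw [e, norm_zero] at h1
      linarith
    have e1 : DifferentiableAt ℂ (fun w : ℂ => (w + w⁻¹) / 2) w :=
      (differentiableAt_id.add (differentiableAt_inv hw0)).div_const 2
    have e2 : DifferentiableAt ℂ g ((w + w⁻¹) / 2) :=
      hg.differentiableAt ((Nb_open (-1) 1 d).mem_nhds (hmem w h1 h2))
    rw [hh]
    exact ((differentiableAt_inv hw0).pow k).mul (DifferentiableAt.comp w e2 e1)
  have hint := Complex.circleIntegral_sub_center_inv_smul_eq_of_differentiable_on_annulus_off_countable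
    (c := 0) (r := 1) (R := q) one_pos hq1.le (f := h) (s := ∅) countable_empty
    (by
      intro w hw
      have h1 : ‖w‖ ≤ q := by simpa using hw.1
      have h2 : 1 ≤ ‖w‖ := by simpa using hw.2
      exact (hdiff w h2 h1).continuousAt.continuousWithinAt)
    (by
      intro w hw
      have h1 : ‖w‖ < q := by simpa using hw.1.1
      have h2 : 1 < ‖w‖ := by simpa using hw.1.2
      exact hdiff w h2.le h1.le)
  have hone : (∮ z in C(0, 1), (z - 0)⁻¹ • h z) = Complex.I * ∫ x in (0 : ℝ)..(2 * Real.pi),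
      Complex.exp (-(((k : ℤ) : ℂ) * x * Complex.I)) * F (Real.cos x) z := by
    rw [← intervalIntegral.integral_const_mul]
    unfold circleIntegral
    refine intervalIntegral.integral_congr fun x _ => ?_
    show deriv (circleMap 0 1) x • ((circleMap 0 1 x - 0)⁻¹ • h (circleMap 0 1 x)) =
      Complex.I * (Complex.exp (-(((k : ℤ) : ℂ) * x * Complex.I)) * F (Real.cos x) z)
    have hcm : circleMap 0 1 x = Complex.exp (x * Complex.I) := by simp [circleMap]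
    rw [deriv_circleMap, sub_zero, hcm, hh]
    show (Complex.exp (x * Complex.I) * Complex.I) • ((Complex.exp (x * Complex.I))⁻¹ •
      (((Complex.exp (x * Complex.I))⁻¹) ^ k *
        g ((Complex.exp (x * Complex.I) + (Complex.exp (x * Complex.I))⁻¹) / 2))) = _
    have hcos : (Complex.exp (x * Complex.I) + (Complex.exp (x * Complex.I))⁻¹) / 2 = ((Real.cos x : ℝ) : ℂ) := by
      rw [Complex.ofReal_cos, Complex.cos, ← Complex.exp_neg, neg_mul]
    rw [hcos, hgF _ ⟨Real.neg_one_le_cos x, Real.cos_le_one x⟩, smul_eq_mul, smul_eq_mul, ← Complex.exp_neg,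
      ← Complex.exp_nat_mul]
    have e1 : Complex.exp (x * Complex.I) * Complex.exp (-(x * Complex.I)) = 1 := by
      rw [← Complex.exp_add, add_neg_cancel, Complex.exp_zero]
    have e2 : (k : ℂ) * -(x * Complex.I) = -(((k : ℤ) : ℂ) * x * Complex.I) := by
      push_cast
      ring
    rw [e2]
    linear_combination (Complex.I * (Complex.exp (-(((k : ℤ) : ℂ) * x * Complex.I)) * F (Real.cos x) z)) * e1
  have hR : ‖∮ z in C(0, q), (z - 0)⁻¹ • h z‖ ≤ 2 * Real.pi * q * (q⁻¹ * (q⁻¹ ^ k * M)) := by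
    refine circleIntegral.norm_integral_le_of_norm_le_const hq0.le fun w hw => ?_
    have hwn : ‖w‖ = q := by simpa using hw
    rw [sub_zero, norm_smul, norm_inv, hwn, hh]
    refine mul_le_mul_of_nonneg_left ?_ (inv_nonneg.2 hq0.le)
    show ‖(w⁻¹) ^ k * g ((w + w⁻¹) / 2)‖ ≤ q⁻¹ ^ k * M
    rw [norm_mul, norm_pow, norm_inv, hwn]
    exact mul_le_mul_of_nonneg_left (hgM _ (hmem w (by rw [hwn]; exact hq1.le) hwn.le)) (by positivity)
  rw [hint, hone, norm_mul, Complex.norm_I, one_mul] at hR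
  unfold cc
  rw [norm_mul, Complex.norm_real, Real.norm_of_nonneg (by positivity)]
  calc (2 * Real.pi)⁻¹ * ‖∫ x in (0 : ℝ)..(2 * Real.pi),
        Complex.exp (-(((k : ℤ) : ℂ) * x * Complex.I)) * F (Real.cos x) z‖
      ≤ (2 * Real.pi)⁻¹ * (2 * Real.pi * q * (q⁻¹ * (q⁻¹ ^ k * M))) :=
        mul_le_mul_of_nonneg_left hR (by positivity)
    _ = M * q⁻¹ ^ k := by
        have := Real.two_pi_pos.ne'
        field_simp

/-- the Chebyshev polynomials are small near `[-1, 1]` -/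
theorem cheb_small {Q : ℝ} (hQ : 1 < Q) : ∃ δ > 0, ∀ s ∈ Nb (-1) 1 δ, ∀ n : ℤ,
    ‖(Polynomial.Chebyshev.T ℂ n).eval s‖ ≤ Q ^ n.natAbs := by
  have hQ0 : 0 < Q := by linarith
  have hlog : 0 < Real.log Q := Real.log_pos hQ
  have hcosh : 1 < Real.cosh (Real.log Q) := Real.one_lt_cosh.2 hlog.ne'
  refine ⟨Real.cosh (Real.log Q) - 1, by linarith, fun s hs n => ?_⟩
  rw [mem_Nb (by norm_num)] at hs
  obtain ⟨t, ht, hst⟩ := hs
  obtain ⟨θ, hθ⟩ := Complex.cos_surjective s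
  obtain ⟨y, hy⟩ : ∃ y : ℝ, y = θ.im := ⟨_, rfl⟩
  obtain ⟨w, hw⟩ : ∃ w : ℂ, w = Complex.exp (θ * Complex.I) := ⟨_, rfl⟩
  have hwn : ‖w‖ = Real.exp (-y) := by
    rw [hw, Complex.norm_exp, hy]
    simp
  have hw0 : w ≠ 0 := by rw [hw]; exact Complex.exp_ne_zero _
  have hsw : s = (w + w⁻¹) / 2 := by
    rw [← hθ, Complex.cos, hw, ← Complex.exp_neg, neg_mul]
  have h1 : ‖s - 1‖ = ‖w - 1‖ ^ 2 / (2 * ‖w‖) := by
    have e : s - 1 = (w - 1) ^ 2 / (2 * w) := by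
      rw [hsw]
      field_simp
      ring
    rw [e, norm_div, norm_pow, norm_mul, Complex.norm_ofNat]
  have h2 : ‖s + 1‖ = ‖w + 1‖ ^ 2 / (2 * ‖w‖) := by
    have e : s + 1 = (w + 1) ^ 2 / (2 * w) := by
      rw [hsw]
      field_simp
      ring
    rw [e, norm_div, norm_pow, norm_mul, Complex.norm_ofNat]
  have h3 : ‖s - 1‖ + ‖s + 1‖ = 2 * Real.cosh y := by
    have hpar : ‖w + 1‖ ^ 2 + ‖w - 1‖ ^ 2 = 2 * (‖w‖ ^ 2 + 1) := by
      rw [← Complex.normSq_eq_norm_sq, ← Complex.normSq_eq_norm_sq, ← Complex.normSq_eq_norm_sq,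
        Complex.normSq_apply, Complex.normSq_apply, Complex.normSq_apply]
      simp
      ring
    rw [h1, h2, ← add_div, add_comm, hpar, hwn, Real.cosh_eq]
    have e1 : Real.exp y * Real.exp (-y) = 1 := by rw [← Real.exp_add, add_neg_cancel, Real.exp_zero]
    have e2 := (Real.exp_pos (-y)).ne'
    field_simp
    nlinarith [e1]
  have h4 : ‖s - 1‖ + ‖s + 1‖ ≤ 2 * Real.cosh (Real.log Q) := by
    rw [dist_eq_norm] at hst
    have a1 : ‖s - 1‖ ≤ ‖s - t‖ + (1 - t) := by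
      calc ‖s - 1‖ = ‖(s - t) + ((t - 1 : ℝ) : ℂ)‖ := by congr 1; push_cast; ring
        _ ≤ ‖s - t‖ + ‖((t - 1 : ℝ) : ℂ)‖ := norm_add_le _ _
        _ = ‖s - t‖ + (1 - t) := by
            rw [Complex.norm_real, Real.norm_eq_abs, abs_of_nonpos (by linarith [ht.2])]
            ring
    have a2 : ‖s + 1‖ ≤ ‖s - t‖ + (1 + t) := by
      calc ‖s + 1‖ = ‖(s - t) + ((t + 1 : ℝ) : ℂ)‖ := by congr 1; push_cast; ring
        _ ≤ ‖s - t‖ + ‖((t + 1 : ℝ) : ℂ)‖ := norm_add_le _ _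
        _ = ‖s - t‖ + (1 + t) := by
            rw [Complex.norm_real, Real.norm_eq_abs, abs_of_nonneg (by linarith [ht.1])]
            ring
    linarith
  have h5 : |y| ≤ Real.log Q := by
    have h6 : Real.cosh y ≤ Real.cosh (Real.log Q) := by linarith
    rw [Real.cosh_le_cosh, abs_of_pos hlog] at h6
    exact h6
  have hcosn : ∀ v : ℂ, ‖Complex.cos v‖ ≤ Real.exp |v.im| := by
    intro v
    rw [Complex.cos, norm_div, Complex.norm_ofNat]
    have b1 : ‖Complex.exp (v * Complex.I) + Complex.exp (-v * Complex.I)‖ ≤ Real.exp |v.im| + Real.exp |v.im| := by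
      refine (norm_add_le _ _).trans (add_le_add ?_ ?_)
      · rw [Complex.norm_exp]
        refine Real.exp_le_exp.2 ?_
        have : (v * Complex.I).re = -v.im := by simp
        rw [this]
        exact neg_le_abs _
      · rw [Complex.norm_exp]
        refine Real.exp_le_exp.2 ?_
        have : (-v * Complex.I).re = v.im := by simp
        rw [this]
        exact le_abs_self _
    linarith
  rw [← hθ, Polynomial.Chebyshev.T_complex_cos]
  refine (hcosn _).trans ?_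
  have him : ((n : ℂ) * θ).im = n * y := by rw [hy]; simp
  rw [him, abs_mul]
  have hna : |(n : ℝ)| = (n.natAbs : ℝ) := by rw [Nat.cast_natAbs, Int.cast_abs]
  rw [hna]
  calc Real.exp ((n.natAbs : ℝ) * |y|) ≤ Real.exp ((n.natAbs : ℝ) * Real.log Q) :=
        Real.exp_le_exp.2 (mul_le_mul_of_nonneg_left h5 (Nat.cast_nonneg _))
    _ = Q ^ n.natAbs := by rw [mul_comm, Real.exp_mul, Real.exp_log hQ0, Real.rpow_natCast]

/-- summability of two-sided geometric series -/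
theorem summable_natAbs {q : ℝ} (hq0 : 0 ≤ q) (hq1 : q < 1) (C : ℝ) : Summable fun n : ℤ => C * q ^ n.natAbs := by
  have h := summable_geometric_of_lt_one hq0 hq1
  refine Summable.mul_left C ?_
  refine Summable.of_nat_of_neg ?_ ?_
  · simpa using h
  · simpa using h

/-- the Chebyshev series -/
noncomputable def GG (F : ℝ → ℂ → ℂ) (p : ℂ × ℂ) : ℂ :=
  ∑' n : ℤ, cc F n p.2 * (Polynomial.Chebyshev.T ℂ n).eval p.1

/-- the Chebyshev series represents the function -/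
theorem GG_eq {F : ℝ → ℂ → ℂ} {z : ℂ} (hc : ContinuousOn (fun s => F s z) (Icc (-1) 1))
    (hs : Summable fun n : ℤ => ‖cc F n z‖) {s : ℝ} (hs1 : s ∈ Icc (-1 : ℝ) 1) : GG F ((s : ℂ), z) = F s z := by
  have : Fact (0 < 2 * Real.pi) := ⟨Real.two_pi_pos⟩
  -- the continuous function on the circle
  let f : C(AddCircle (2 * Real.pi), ℂ) := ⟨fun x => F (Real.Angle.cos x) z, by
    refine hc.comp_continuous (f := fun x : AddCircle (2 * Real.pi) => Real.Angle.cos x)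
      Real.Angle.continuous_cos ?_
    intro x
    induction x using QuotientAddGroup.induction_on with
    | H x => exact ⟨Real.neg_one_le_cos x, Real.cos_le_one x⟩⟩
  have hf : ∀ x : ℝ, f (x : AddCircle (2 * Real.pi)) = F (Real.cos x) z := fun x => rfl
  have hcoef : ∀ n : ℤ, fourierCoeff f n = cc F n z := by
    intro n
    rw [fourierCoeff_eq_intervalIntegral f n 0, zero_add]
    unfold cc
    rw [Complex.real_smul, one_div]
    congr 1
    refine intervalIntegral.integral_congr fun x _ => ?_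
    show fourier (-n) (x : AddCircle (2 * Real.pi)) • f (x : AddCircle (2 * Real.pi)) = _
    rw [fourier_coe_apply, hf, smul_eq_mul]
    congr 2
    have := Real.two_pi_pos.ne'
    have h2 : ((2 * Real.pi : ℝ) : ℂ) ≠ 0 := Complex.ofReal_ne_zero.2 this
    rw [div_eq_iff h2]
    push_cast
    ring
  have hsum : Summable (fourierCoeff f) := by
    refine Summable.of_norm ?_
    simpa only [hcoef] using hs
  obtain ⟨θ, hθ⟩ : ∃ θ : ℝ, Real.cos θ = s := ⟨Real.arccos s, Real.cos_arccos hs1.1 hs1.2⟩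
  have h1 := has_pointwise_sum_fourier_series_of_summable hsum (θ : AddCircle (2 * Real.pi))
  have h2 := has_pointwise_sum_fourier_series_of_summable hsum ((-θ : ℝ) : AddCircle (2 * Real.pi))
  have h3 := h1.add h2
  rw [hf, hf, Real.cos_neg, hθ] at h3
  have e : ∀ n : ℤ, fourierCoeff f n • fourier n ((θ : ℝ) : AddCircle (2 * Real.pi)) +
      fourierCoeff f n • fourier n ((-θ : ℝ) : AddCircle (2 * Real.pi)) =
      2 * (cc F n z * (Polynomial.Chebyshev.T ℂ n).eval ((s : ℝ) : ℂ)) := by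
    intro n
    have h2 : ((2 * Real.pi : ℝ) : ℂ) ≠ 0 := Complex.ofReal_ne_zero.2 Real.two_pi_pos.ne'
    have e1 : (2 * Real.pi * Complex.I * n * θ / ((2 * Real.pi : ℝ) : ℂ) : ℂ) = n * θ * Complex.I := by
      rw [div_eq_iff h2]
      push_cast
      ring
    have e2 : (2 * Real.pi * Complex.I * n * ((-θ : ℝ) : ℂ) / ((2 * Real.pi : ℝ) : ℂ) : ℂ) =
        -(n * θ) * Complex.I := by
      rw [div_eq_iff h2]
      push_cast
      ring
    rw [hcoef, fourier_coe_apply, fourier_coe_apply, e1, e2, ← hθ, Complex.ofReal_cos,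
      Polynomial.Chebyshev.T_complex_cos, Complex.cos, smul_eq_mul, smul_eq_mul]
    ring
  have h4 : HasSum (fun n : ℤ => 2 * (cc F n z * (Polynomial.Chebyshev.T ℂ n).eval ((s : ℝ) : ℂ)))
      (F s z + F s z) := by
    simpa only [e] using h3
  have h5 : HasSum (fun n : ℤ => cc F n z * (Polynomial.Chebyshev.T ℂ n).eval ((s : ℝ) : ℂ)) (F s z) := by
    have h6 := h4.mul_left (1 / 2 : ℂ)
    have e3 : (1 / 2 : ℂ) * (F s z + F s z) = F s z := by ring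
    rw [e3] at h6
    refine h6.congr_fun fun n => ?_
    ring
  exact h5.tsum_eq

/-- the Chebyshev series is bounded and analytic near `[-1, 1] × {z₀}` if the coefficients are geometrically small near `z₀` -/
theorem GG_an {F : ℝ → ℂ → ℂ} {z₀ : ℂ} {r : ℝ} (hd : ∀ n, DifferentiableOn ℂ (cc F n) (ball z₀ r))
    {C θ : ℝ} (hC : 0 ≤ C) (hθ0 : 0 < θ) (hθ1 : θ < 1)
    (hb : ∀ n : ℤ, ∀ w ∈ ball z₀ r, ‖cc F n w‖ ≤ C * θ ^ n.natAbs) :
    ∃ δ > 0, ∃ M : ℝ, ∀ p : ℂ × ℂ, p.1 ∈ Nb (-1) 1 δ → p.2 ∈ ball z₀ r → AnalyticAt ℂ (GG F) p ∧ ‖GG F p‖ ≤ M := by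
  obtain ⟨Q, hQ1, hQθ⟩ : ∃ Q : ℝ, 1 < Q ∧ Q * θ < 1 := by
    refine ⟨(1 + 1 / θ) / 2, ?_, ?_⟩
    · have : 1 < 1 / θ := by rw [lt_div_iff₀ hθ0]; linarith
      linarith
    · have e : (1 + 1 / θ) / 2 * θ = (θ + 1) / 2 := by
        field_simp
      rw [e]
      linarith
  have hQ0 : 0 < Q := by linarith
  obtain ⟨δ, hδ, hT⟩ := cheb_small hQ1
  obtain ⟨q, hq⟩ : ∃ q : ℝ, q = Q * θ := ⟨_, rfl⟩
  have hq0 : 0 < q := by rw [hq]; positivity
  have hq1 : q < 1 := by rw [hq]; exact hQθ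
  have hsum := summable_natAbs hq0.le hq1 C
  have hterm : ∀ p : ℂ × ℂ, p.1 ∈ Nb (-1) 1 δ → p.2 ∈ ball z₀ r → ∀ n : ℤ,
      ‖cc F n p.2 * (Polynomial.Chebyshev.T ℂ n).eval p.1‖ ≤ C * q ^ n.natAbs := by
    intro p h1 h2 n
    rw [norm_mul, hq, mul_pow]
    calc ‖cc F n p.2‖ * ‖(Polynomial.Chebyshev.T ℂ n).eval p.1‖ ≤ (C * θ ^ n.natAbs) * Q ^ n.natAbs :=
          mul_le_mul (hb n _ h2) (hT _ h1 n) (norm_nonneg _) (by positivity)
      _ = C * (Q ^ n.natAbs * θ ^ n.natAbs) := by ring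
  have hbound : ∀ p : ℂ × ℂ, p.1 ∈ Nb (-1) 1 δ → p.2 ∈ ball z₀ r → ‖GG F p‖ ≤ ∑' n : ℤ, C * q ^ n.natAbs := by
    intro p h1 h2
    exact tsum_of_norm_bounded hsum.hasSum fun n => hterm p h1 h2 n
  refine ⟨δ, hδ, ∑' n : ℤ, C * q ^ n.natAbs, fun p h1 h2 => ⟨?_, hbound p h1 h2⟩⟩
  obtain ⟨s₀, w₀⟩ := p
  obtain ⟨ρ₁, hρ₁, hsub₁⟩ := Metric.isOpen_iff.1 (Nb_open (-1) 1 δ) s₀ h1
  obtain ⟨ρ₂, hρ₂, hsub₂⟩ := Metric.isOpen_iff.1 (isOpen_ball : IsOpen (ball z₀ r)) w₀ h2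
  have hρ : 0 < min ρ₁ ρ₂ := lt_min hρ₁ hρ₂
  have hin₁ : ∀ s ∈ ball s₀ (min ρ₁ ρ₂), s ∈ Nb (-1) 1 δ := fun s hs =>
    hsub₁ (ball_subset_ball (min_le_left _ _) hs)
  have hin₂ : ∀ w ∈ ball w₀ (min ρ₁ ρ₂), w ∈ ball z₀ r := fun w hw =>
    hsub₂ (ball_subset_ball (min_le_right _ _) hw)
  refine Pool.Agent.TH.osgood (M := ∑' n : ℤ, C * q ^ n.natAbs) hρ ?_ ?_ ?_
  · intro s hs w hw
    exact hbound (s, w) (hin₁ s hs) (hin₂ w hw)
  · intro w hw
    refine Complex.differentiableOn_tsum_of_summable_norm hsum (fun n => ?_) isOpen_ball fun n s hs =>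
      hterm (s, w) (hin₁ s hs) (hin₂ w hw) n
    have h3 : DifferentiableOn ℂ (fun s : ℂ => (Polynomial.Chebyshev.T ℂ n).eval s) (ball s₀ (min ρ₁ ρ₂)) :=
      (Polynomial.Chebyshev.T ℂ n).differentiable.differentiableOn
    exact h3.const_mul (cc F n w)
  · intro s hs
    refine Complex.differentiableOn_tsum_of_summable_norm hsum (fun n => ?_) isOpen_ball fun n w hw =>
      hterm (s, w) (hin₁ s hs) (hin₂ w hw) n
    have h3 : DifferentiableOn ℂ (cc F n) (ball w₀ (min ρ₁ ρ₂)) := (hd n).mono fun w hw => hin₂ w hw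
    exact h3.mul_const ((Polynomial.Chebyshev.T ℂ n).eval s)

/-- analyticity in a real parameter propagates, for the interval `[-1, 1]` -/
theorem cheb_ext_unit {F : ℝ → ℂ → ℂ} {U : Set ℂ} (hU : IsOpen U) (hUc : IsPreconnected U)
    (hc : ContinuousOn (fun p : ℝ × ℂ => F p.1 p.2) (Icc (-1) 1 ×ˢ U))
    (hd : ∀ s ∈ Icc (-1 : ℝ) 1, DifferentiableOn ℂ (F s) U) {z₁ : ℂ} (hz₁ : z₁ ∈ U) {r d M : ℝ} (hr : 0 < r)
    (hd0 : 0 < d) (h₁ : ∀ z ∈ ball z₁ r, ∃ g : ℂ → ℂ, DifferentiableOn ℂ g (Nb (-1) 1 d) ∧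
      (∀ s ∈ Nb (-1) 1 d, ‖g s‖ ≤ M) ∧ ∀ s ∈ Icc (-1 : ℝ) 1, g (s : ℂ) = F s z) :
    ∀ z₀ ∈ U, ∃ r' > 0, ∃ δ > 0, ∃ M' : ℝ, (∀ p : ℂ × ℂ, p.1 ∈ Nb (-1) 1 δ → p.2 ∈ ball z₀ r' →
      AnalyticAt ℂ (GG F) p ∧ ‖GG F p‖ ≤ M') ∧ ∀ s ∈ Icc (-1 : ℝ) 1, ∀ z ∈ ball z₀ r', GG F ((s : ℂ), z) = F s z := by
  have hcd : ∀ n, DifferentiableOn ℂ (cc F n) U := cc_diff hU hc hd
  have hM0 : 0 ≤ M := by
    obtain ⟨g, -, hg, -⟩ := h₁ z₁ (mem_ball_self hr)
    have h0 : ((0 : ℝ) : ℂ) ∈ Nb (-1) 1 d := ofReal_mem_Nb hd0 (by constructor <;> norm_num)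
    exact (norm_nonneg _).trans (hg _ h0)
  have hloc : ∀ z ∈ U, ∃ r > 0, ∃ M : ℝ, ball z r ⊆ U ∧ ∀ n : ℤ, ∀ w ∈ ball z r, ‖cc F n w‖ ≤ M := by
    intro z hz
    obtain ⟨R, hR, hRU⟩ := Metric.isOpen_iff.1 hU z hz
    have hsub : closedBall z (R / 2) ⊆ U := (closedBall_subset_ball (by linarith)).trans hRU
    obtain ⟨M, hM⟩ := (isCompact_Icc.prod (isCompact_closedBall z (R / 2))).exists_bound_of_continuousOn
      (hc.mono (prod_mono_right hsub))
    refine ⟨R / 2, by positivity, M, ball_subset_closedBall.trans hsub, fun n w hw => ?_⟩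
    exact cc_bound (fun s hs => hM (s, w) ⟨hs, ball_subset_closedBall hw⟩) n
  have hgeo : GeomAt (cc F) z₁ := by
    refine ⟨r, hr, (1 + d / 2)⁻¹, by positivity, inv_lt_one_of_one_lt₀ (by linarith), M, hM0, fun n w hw => ?_⟩
    obtain ⟨g, hg1, hg2, hg3⟩ := h₁ w hw
    exact cc_decay hd0 hg1 hg2 hg3 n
  have hall := geom_propagate hUc hcd hloc hz₁ hgeo
  intro z₀ hz₀
  obtain ⟨r₁, hr₁, θ, hθ0, hθ1, C, hC, hdec⟩ := hall z₀ hz₀
  obtain ⟨R, hR, hRU⟩ := Metric.isOpen_iff.1 hU z₀ hz₀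
  have hρ : 0 < min r₁ R := lt_min hr₁ hR
  have hs1 : ball z₀ (min r₁ R) ⊆ ball z₀ r₁ := ball_subset_ball (min_le_left _ _)
  have hs2 : ball z₀ (min r₁ R) ⊆ U := (ball_subset_ball (min_le_right _ _)).trans hRU
  obtain ⟨δ, hδ, M', hM'⟩ := GG_an (fun n => (hcd n).mono hs2) hC hθ0 hθ1 fun n w hw => hdec n w (hs1 hw)
  refine ⟨min r₁ R, hρ, δ, hδ, M', hM', fun s hs z hz => ?_⟩
  refine GG_eq ?_ ?_ hs
  · exact ContinuousOn.comp (f := fun s : ℝ => (s, z)) hc (continuousOn_id.prodMk continuousOn_const)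
      fun s hs => ⟨hs, hs2 hz⟩
  · exact Summable.of_nonneg_of_le (fun n => norm_nonneg _) (fun n => hdec n z (hs1 hz))
      (summable_natAbs hθ0.le hθ1 C)

/-- **analyticity in a real parameter propagates**: `F` continuous on `[a, b] × U`, holomorphic in the second variable; if
`s ↦ F s z` extends to a bounded holomorphic function on a fixed complex neighbourhood of `[a, b]` for all `z` near one point of
the preconnected open set `U`, then there is one function `G` which is analytic and bounded near `[a, b] × {z₀}` and equal to `F`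
there, for every `z₀ ∈ U` -/
theorem cheb_ext {a b : ℝ} (hab : a < b) {F : ℝ → ℂ → ℂ} {U : Set ℂ} (hU : IsOpen U) (hUc : IsPreconnected U)
    (hc : ContinuousOn (fun p : ℝ × ℂ => F p.1 p.2) (Icc a b ×ˢ U))
    (hd : ∀ s ∈ Icc a b, DifferentiableOn ℂ (F s) U) {z₁ : ℂ} (hz₁ : z₁ ∈ U) {r d M : ℝ} (hr : 0 < r)
    (hd0 : 0 < d) (h₁ : ∀ z ∈ ball z₁ r, ∃ g : ℂ → ℂ, DifferentiableOn ℂ g (Nb a b d) ∧
      (∀ s ∈ Nb a b d, ‖g s‖ ≤ M) ∧ ∀ s ∈ Icc a b, g (s : ℂ) = F s z) :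
    ∃ G : ℂ × ℂ → ℂ, ∀ z₀ ∈ U, ∃ r' > 0, ∃ δ > 0, ∃ M' : ℝ, (∀ p : ℂ × ℂ, p.1 ∈ Nb a b δ → p.2 ∈ ball z₀ r' →
      AnalyticAt ℂ G p ∧ ‖G p‖ ≤ M') ∧ ∀ s ∈ Icc a b, ∀ z ∈ ball z₀ r', G ((s : ℂ), z) = F s z := by
  obtain ⟨c, hc'⟩ : ∃ c : ℝ, c = (a + b) / 2 := ⟨_, rfl⟩
  obtain ⟨l, hl⟩ : ∃ l : ℝ, l = (b - a) / 2 := ⟨_, rfl⟩
  have hl0 : 0 < l := by rw [hl]; linarith
  have hin : ∀ σ ∈ Icc (-1 : ℝ) 1, c + l * σ ∈ Icc a b := by
    rintro σ ⟨h1, h2⟩
    constructor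
    · have : a = c - l := by rw [hc', hl]; ring
      nlinarith
    · have : b = c + l := by rw [hc', hl]; ring
      nlinarith
  have hout : ∀ s ∈ Icc a b, (s - c) / l ∈ Icc (-1 : ℝ) 1 := by
    rintro s ⟨h1, h2⟩
    constructor
    · rw [le_div_iff₀ hl0]
      have : a = c - l := by rw [hc', hl]; ring
      linarith
    · rw [div_le_iff₀ hl0]
      have : b = c + l := by rw [hc', hl]; ring
      linarith
  have hNb : ∀ {σ : ℂ} {e : ℝ}, σ ∈ Nb (-1) 1 e → (c : ℂ) + l * σ ∈ Nb a b (l * e) := by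
    intro σ e h
    rw [mem_Nb (by norm_num)] at h
    rw [mem_Nb hab.le]
    obtain ⟨x, hx, hxs⟩ := h
    refine ⟨c + l * x, hin x hx, ?_⟩
    rw [dist_eq_norm] at hxs ⊢
    have : (c : ℂ) + l * σ - ((c + l * x : ℝ) : ℂ) = (l : ℂ) * (σ - x) := by push_cast; ring
    rw [this, norm_mul, Complex.norm_real, Real.norm_of_nonneg hl0.le]
    exact mul_lt_mul_of_pos_left hxs hl0
  have hNb' : ∀ {s : ℂ} {e : ℝ}, s ∈ Nb a b (l * e) → (s - c) / l ∈ Nb (-1) 1 e := by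
    intro s e h
    rw [mem_Nb hab.le] at h
    rw [mem_Nb (by norm_num)]
    obtain ⟨x, hx, hxs⟩ := h
    refine ⟨(x - c) / l, hout x hx, ?_⟩
    rw [dist_eq_norm] at hxs ⊢
    have : (s - c) / l - (((x - c) / l : ℝ) : ℂ) = (s - x) / l := by push_cast; ring
    rw [this, norm_div, Complex.norm_real, Real.norm_of_nonneg hl0.le, div_lt_iff₀ hl0, mul_comm e l]
    exact hxs
  obtain ⟨F', hF'⟩ : ∃ F' : ℝ → ℂ → ℂ, F' = fun σ z => F (c + l * σ) z := ⟨_, rfl⟩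
  have hc1 : ContinuousOn (fun p : ℝ × ℂ => F' p.1 p.2) (Icc (-1) 1 ×ˢ U) := by
    rw [hF']
    refine ContinuousOn.comp (f := fun p : ℝ × ℂ => (c + l * p.1, p.2)) hc
      (Continuous.continuousOn (by fun_prop)) ?_
    rintro ⟨σ, z⟩ ⟨h1, h2⟩
    exact ⟨hin σ h1, h2⟩
  have hd1 : ∀ σ ∈ Icc (-1 : ℝ) 1, DifferentiableOn ℂ (F' σ) U := by
    intro σ hσ
    rw [hF']
    exact hd _ (hin σ hσ)
  have hld : l * (d / l) = d := by field_simp
  have h1' : ∀ z ∈ ball z₁ r, ∃ g : ℂ → ℂ, DifferentiableOn ℂ g (Nb (-1) 1 (d / l)) ∧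
      (∀ s ∈ Nb (-1) 1 (d / l), ‖g s‖ ≤ M) ∧ ∀ s ∈ Icc (-1 : ℝ) 1, g (s : ℂ) = F' s z := by
    intro z hz
    obtain ⟨g, hg1, hg2, hg3⟩ := h₁ z hz
    refine ⟨fun σ => g (c + l * σ), ?_, ?_, ?_⟩
    · refine DifferentiableOn.comp (g := g) (f := fun σ : ℂ => (c : ℂ) + l * σ) (t := Nb a b d) hg1
        (Differentiable.differentiableOn (by fun_prop)) ?_
      intro σ hσ
      have h := hNb hσ
      rwa [hld] at h
    · intro σ hσ
      have h := hNb hσ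
      rw [hld] at h
      exact hg2 _ h
    · intro σ hσ
      rw [hF']
      have h := hg3 _ (hin σ hσ)
      push_cast at h
      exact h
  have key := cheb_ext_unit hU hUc hc1 hd1 hz₁ hr (div_pos hd0 hl0) h1'
  refine ⟨fun p => GG F' ((p.1 - c) / l, p.2), fun z₀ hz₀ => ?_⟩
  obtain ⟨r', hr', δ, hδ, M', hM', hE⟩ := key z₀ hz₀
  refine ⟨r', hr', l * δ, mul_pos hl0 hδ, M', ?_, ?_⟩
  · intro p h1 h2
    obtain ⟨h3, h4⟩ := hM' ((p.1 - c) / l, p.2) (hNb' h1) h2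
    refine ⟨?_, h4⟩
    have h5 : AnalyticAt ℂ (fun p : ℂ × ℂ => ((p.1 - c) / l, p.2)) p :=
      ((analyticAt_fst.sub analyticAt_const).div_const).prod analyticAt_snd
    exact AnalyticAt.comp (g := GG F') (f := fun p : ℂ × ℂ => ((p.1 - c) / l, p.2)) h3 h5
  · intro s hs z hz
    have h := hE ((s - c) / l) (hout s hs) z hz
    have e1 : c + l * ((s - c) / l) = s := by field_simp; ring
    rw [hF'] at h
    simp only [e1] at h
    rw [← h, hF']
    show GG (fun σ z => F (c + l * σ) z) (((s : ℂ) - c) / l, z) = _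
    push_cast
    rfl

end Pool.Agent.H6G3
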