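import Mathlib

/-!
# G3 Circ: parametric integrals, three circles, propagation of smallness

* `differentiableOn_parInt`: `z ↦ ∫ s in a..b, F s z` is holomorphic.
* `three_circles`: if `‖f‖ ≤ M` on the big disc and `‖f‖ ≤ M ε` on the small disc then `‖f‖ ≤ M ε ^ τ` on the
  disc between them; `τ` depends on the radii only.
* `geom_propagate`: a family of holomorphic functions, locally uniformly bounded on a preconnected open set and
  `O(θ ^ |n|)` near one point, is `O(θ' ^ |n|)` near every point.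
-/

set_option autoImplicit false

open Set Metric Filter Topology MeasureTheory

namespace Pool.Agent.H6G3

/-- parametric integrals of holomorphic functions are holomorphic -/
theorem differentiableOn_parInt {F : ℝ → ℂ → ℂ} {a b : ℝ} (hab : a ≤ b) {U : Set ℂ} (hU : IsOpen U)
    (hc : ContinuousOn (fun p : ℝ × ℂ => F p.1 p.2) (Icc a b ×ˢ U))
    (hd : ∀ s ∈ Icc a b, DifferentiableOn ℂ (F s) U) :
    DifferentiableOn ℂ (fun z => ∫ s in a..b, F s z) U := by
  intro z₀ hz₀
  refine DifferentiableAt.differentiableWithinAt ?_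
  obtain ⟨R, hR, hRU⟩ := Metric.isOpen_iff.1 hU z₀ hz₀
  have hr : 0 < R / 3 := by positivity
  have hK : closedBall z₀ (2 * (R / 3)) ⊆ U :=
    (closedBall_subset_ball (by linarith)).trans hRU
  have hcomp : IsCompact (Icc a b ×ˢ closedBall z₀ (2 * (R / 3))) :=
    isCompact_Icc.prod (isCompact_closedBall _ _)
  obtain ⟨M, hM⟩ := hcomp.exists_bound_of_continuousOn (hc.mono (prod_mono_right hK))
  have hsub : ∀ z ∈ ball z₀ (R / 3), closedBall z (R / 3) ⊆ closedBall z₀ (2 * (R / 3)) := by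
    intro z hz w hw
    rw [mem_closedBall] at hw ⊢
    rw [mem_ball] at hz
    calc dist w z₀ ≤ dist w z + dist z z₀ := dist_triangle _ _ _
      _ ≤ 2 * (R / 3) := by linarith
  have hmemU : ∀ z ∈ ball z₀ (R / 3), z ∈ U := fun z hz =>
    hK (hsub z hz (mem_closedBall_self hr.le))
  have hΙ : ∀ t, t ∈ uIoc a b → t ∈ Icc a b := by
    intro t ht
    rw [uIoc_of_le hab] at ht
    exact Ioc_subset_Icc_self ht
  have hcz : ∀ z ∈ U, ContinuousOn (fun s => F s z) (Icc a b) := by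
    intro z hz
    exact ContinuousOn.comp (f := fun s : ℝ => (s, z)) hc
      (continuousOn_id.prodMk continuousOn_const) fun s hs => ⟨hs, hz⟩
  have hmeas : ∀ z ∈ U, AEStronglyMeasurable (fun s => F s z) (volume.restrict (uIoc a b)) := by
    intro z hz
    rw [uIoc_of_le hab]
    exact ((hcz z hz).mono Ioc_subset_Icc_self).aestronglyMeasurable measurableSet_Ioc
  have hder : ∀ s ∈ Icc a b, ∀ z ∈ ball z₀ (R / 3), HasDerivAt (F s) (deriv (F s) z) z := by
    intro s hs z hz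
    exact ((hd s hs).differentiableAt (hU.mem_nhds (hmemU z hz))).hasDerivAt
  have hbd : ∀ s ∈ Icc a b, ∀ z ∈ ball z₀ (R / 3), ‖deriv (F s) z‖ ≤ M / (R / 3) := by
    intro s hs z hz
    refine Complex.norm_deriv_le_of_forall_mem_sphere_norm_le hr ?_ ?_
    · refine DifferentiableOn.diffContOnCl ?_
      refine (hd s hs).mono (closure_ball_subset_closedBall.trans ((hsub z hz).trans hK))
    · intro w hw
      exact hM (s, w) ⟨hs, hsub z hz (sphere_subset_closedBall hw)⟩
  have hz0m : z₀ ∈ ball z₀ (R / 3) := mem_ball_self hr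
  have hF'meas : AEStronglyMeasurable (fun s => deriv (F s) z₀) (volume.restrict (uIoc a b)) := by
    -- limit of difference quotients
    obtain ⟨h, hh⟩ : ∃ h : ℕ → ℂ, h = fun n : ℕ => (((R / 3) / ((n : ℝ) + 2) : ℝ) : ℂ) := ⟨_, rfl⟩
    have hval : ∀ n : ℕ, h n = (((R / 3) / ((n : ℝ) + 2) : ℝ) : ℂ) := fun n => by rw [hh]
    have hne : ∀ n, h n ≠ 0 := by
      intro n
      rw [hval]
      have h0 : (0 : ℝ) < (R / 3) / ((n : ℝ) + 2) := by positivity
      exact Complex.ofReal_ne_zero.2 h0.ne'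
    have hin : ∀ n, z₀ + h n ∈ ball z₀ (R / 3) := by
      intro n
      rw [mem_ball, dist_eq_norm, add_sub_cancel_left, hval]
      have h0 : (0 : ℝ) < (R / 3) / ((n : ℝ) + 2) := by positivity
      rw [Complex.norm_real, Real.norm_of_nonneg h0.le, div_lt_iff₀ (by positivity)]
      have : (0 : ℝ) ≤ n := Nat.cast_nonneg n
      nlinarith
    have hlim : Tendsto h atTop (𝓝[≠] 0) := by
      rw [tendsto_nhdsWithin_iff]
      refine ⟨?_, Eventually.of_forall fun n => hne n⟩
      rw [hh]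
      have h1 : Tendsto (fun n : ℕ => (R / 3) / ((n : ℝ) + 2)) atTop (𝓝 0) :=
        Tendsto.const_div_atTop (tendsto_atTop_add_const_right _ _ tendsto_natCast_atTop_atTop) _
      have h2 := (Complex.continuous_ofReal.tendsto 0).comp h1
      rw [Complex.ofReal_zero] at h2
      exact h2
    refine aestronglyMeasurable_of_tendsto_ae atTop
      (f := fun n s => (h n)⁻¹ • (F s (z₀ + h n) - F s z₀)) (fun n => ?_) ?_
    · exact ((hmeas _ (hmemU _ (hin n))).sub (hmeas _ hz₀)).const_smul (h n)⁻¹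
    · rw [ae_restrict_iff' measurableSet_uIoc]
      refine Eventually.of_forall fun s hs => ?_
      have h1 := (hder s (hΙ s hs) z₀ hz0m).tendsto_slope_zero
      exact h1.comp hlim
  have key := intervalIntegral.hasDerivAt_integral_of_dominated_loc_of_deriv_le (μ := volume)
    (a := a) (b := b) (F := fun z s => F s z) (F' := fun z s => deriv (F s) z) (x₀ := z₀)
    (s := ball z₀ (R / 3)) (bound := fun _ => M / (R / 3)) (isOpen_ball.mem_nhds hz0m)
    (by
      filter_upwards [isOpen_ball.mem_nhds hz0m] with z hz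
      exact hmeas z (hmemU z hz))
    (by
      refine ContinuousOn.intervalIntegrable ?_
      rw [uIcc_of_le hab]
      exact hcz z₀ hz₀)
    hF'meas
    (Eventually.of_forall fun t ht z hz => hbd t (hΙ t ht) z hz)
    intervalIntegrable_const
    (Eventually.of_forall fun t ht z hz => hder t (hΙ t ht) z hz)
  exact key.2.differentiableAt

open Complex.HadamardThreeLines in
/-- three circles, in the form of a propagation of smallness -/
theorem three_circles {r₁ r₂ r₃ : ℝ} (h1 : 0 < r₁) (h12 : r₁ ≤ r₂) (h23 : r₂ < r₃) :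
    ∃ τ : ℝ, 0 < τ ∧ τ ≤ 1 ∧ ∀ (f : ℂ → ℂ) (c : ℂ) (R M ε : ℝ), r₃ < R → 0 ≤ M → 0 ≤ ε → ε ≤ 1 →
      DifferentiableOn ℂ f (ball c R) → (∀ z ∈ closedBall c r₃, ‖f z‖ ≤ M) →
      (∀ z ∈ closedBall c r₁, ‖f z‖ ≤ M * ε) → ∀ z ∈ closedBall c r₂, ‖f z‖ ≤ M * ε ^ τ := by
  have h13 : r₁ < r₃ := h12.trans_lt h23
  have h2 : 0 < r₂ := h1.trans_le h12
  have h3 : 0 < r₃ := h1.trans h13
  have hl13 : Real.log r₁ < Real.log r₃ := Real.log_lt_log h1 h13
  have hl12 : Real.log r₁ ≤ Real.log r₂ := Real.log_le_log h1 h12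
  have hl23 : Real.log r₂ < Real.log r₃ := Real.log_lt_log h2 h23
  have hden : 0 < Real.log r₃ - Real.log r₁ := by linarith
  refine ⟨(Real.log r₃ - Real.log r₂) / (Real.log r₃ - Real.log r₁),
    div_pos (by linarith) hden, (div_le_one hden).2 (by linarith), ?_⟩
  intro f c R M ε hR hM hε0 hε1 hf hM3 hM1 z hz
  obtain ⟨τ, hτ⟩ : ∃ τ : ℝ, τ = (Real.log r₃ - Real.log r₂) / (Real.log r₃ - Real.log r₁) := ⟨_, rfl⟩
  rw [← hτ]
  have hτ0 : 0 < τ := by rw [hτ]; exact div_pos (by linarith) hden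
  have hτ1 : τ ≤ 1 := by rw [hτ]; exact (div_le_one hden).2 (by linarith)
  rw [mem_closedBall, dist_eq_norm] at hz
  by_cases hzr : ‖z - c‖ ≤ r₁
  · refine (hM1 z (by rw [mem_closedBall, dist_eq_norm]; exact hzr)).trans ?_
    refine mul_le_mul_of_nonneg_left ?_ hM
    rcases eq_or_lt_of_le hε0 with h0 | h0
    · rw [← h0, Real.zero_rpow hτ0.ne']
    · calc ε = ε ^ (1 : ℝ) := (Real.rpow_one ε).symm
        _ ≤ ε ^ τ := Real.rpow_le_rpow_of_exponent_ge h0 hε1 hτ1
  push Not at hzr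
  obtain ⟨r, hr⟩ : ∃ r : ℝ, r = ‖z - c‖ := ⟨_, rfl⟩
  rw [← hr] at hz hzr
  have hr0 : 0 < r := h1.trans hzr
  have hzc : z - c ≠ 0 := by
    intro h
    rw [h, norm_zero] at hr
    linarith
  -- the point of the strip
  obtain ⟨w, hw⟩ : ∃ w : ℂ, w = Complex.log (z - c) := ⟨_, rfl⟩
  have hwre : w.re = Real.log r := by rw [hw, Complex.log_re, hr]
  have hwexp : Complex.exp w = z - c := by rw [hw, Complex.exp_log hzc]
  obtain ⟨g, hg⟩ : ∃ g : ℂ → ℂ, g = fun w => f (c + Complex.exp w) := ⟨_, rfl⟩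
  have hball : ∀ w : ℂ, w.re ≤ Real.log r₃ → c + Complex.exp w ∈ closedBall c r₃ := by
    intro w hw
    rw [mem_closedBall, dist_eq_norm, add_sub_cancel_left, Complex.norm_exp]
    calc Real.exp w.re ≤ Real.exp (Real.log r₃) := Real.exp_le_exp.2 hw
      _ = r₃ := Real.exp_log h3
  have hballR : closedBall c r₃ ⊆ ball c R := closedBall_subset_ball hR
  have hgd : DiffContOnCl ℂ g (verticalStrip (Real.log r₁) (Real.log r₃)) := by
    refine DifferentiableOn.diffContOnCl ?_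
    intro w hw
    have hw' : w.re ≤ Real.log r₃ := by
      have h := closure_mono (show verticalStrip (Real.log r₁) (Real.log r₃) ⊆
        {w : ℂ | w.re ≤ Real.log r₃} from fun w hw => (hw : w.re ∈ Ioo _ _).2.le) hw
      rwa [(isClosed_le Complex.continuous_re continuous_const).closure_eq] at h
    refine DifferentiableAt.differentiableWithinAt ?_
    rw [hg]
    have h1 : DifferentiableAt ℂ f (c + Complex.exp w) :=
      hf.differentiableAt (isOpen_ball.mem_nhds (hballR (hball w hw')))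
    exact h1.comp w ((differentiableAt_const c).add Complex.differentiableAt_exp)
  have hgb : BddAbove ((norm ∘ g) '' verticalClosedStrip (Real.log r₁) (Real.log r₃)) := by
    refine ⟨M, ?_⟩
    rintro _ ⟨w, hw, rfl⟩
    rw [hg]
    exact hM3 _ (hball w (hw : w.re ∈ Icc _ _).2)
  have hmem : w ∈ verticalClosedStrip (Real.log r₁) (Real.log r₃) := by
    show w.re ∈ Icc _ _
    rw [hwre]
    exact ⟨Real.log_le_log h1 hzr.le, (Real.log_le_log hr0 hz).trans hl23.le⟩
  have hkey := norm_le_interp_of_mem_verticalClosedStrip' (f := g) (z := w) (a := M * ε) (b := M)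
    (l := Real.log r₁) (u := Real.log r₃) hl13 hmem hgd hgb
    (by
      intro w hw
      have hw' : w.re = Real.log r₁ := hw
      rw [hg]
      refine hM1 _ ?_
      rw [mem_closedBall, dist_eq_norm, add_sub_cancel_left, Complex.norm_exp, hw', Real.exp_log h1])
    (by
      intro w hw
      have hw' : w.re = Real.log r₃ := hw
      rw [hg]
      exact hM3 _ (hball w hw'.le))
  have hgw : g w = f z := by
    rw [hg]
    show f (c + Complex.exp w) = f z
    rw [hwexp]
    congr 1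
    ring
  rw [hgw, hwre] at hkey
  obtain ⟨t, ht⟩ : ∃ t : ℝ, t = (Real.log r - Real.log r₁) / (Real.log r₃ - Real.log r₁) := ⟨_, rfl⟩
  rw [← ht] at hkey
  have hτt : τ ≤ 1 - t := by
    rw [hτ, ht, div_le_iff₀ hden, sub_mul, div_mul_cancel₀ _ hden.ne']
    have := Real.log_le_log hr0 hz
    linarith
  have ht0 : 0 ≤ t := by
    rw [ht]
    exact div_nonneg (by linarith [Real.log_le_log h1 hzr.le]) hden.le
  refine hkey.trans ?_
  rcases eq_or_lt_of_le hM with hM0 | hM0
  · rw [← hM0]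
    have h1t : (1 : ℝ) - t ≠ 0 := by linarith
    simp [Real.zero_rpow h1t]
  · rw [Real.mul_rpow hM hε0]
    have e1 : M ^ (1 - t) * ε ^ (1 - t) * M ^ t = M * ε ^ (1 - t) := by
      have : M ^ (1 - t) * M ^ t = M := by
        rw [← Real.rpow_add hM0]
        simp
      calc M ^ (1 - t) * ε ^ (1 - t) * M ^ t = (M ^ (1 - t) * M ^ t) * ε ^ (1 - t) := by ring
        _ = M * ε ^ (1 - t) := by rw [this]
    rw [e1]
    refine mul_le_mul_of_nonneg_left ?_ hM
    rcases eq_or_lt_of_le hε0 with h0 | h0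
    · rw [← h0, Real.zero_rpow hτ0.ne', Real.zero_rpow (by linarith)]
    · exact Real.rpow_le_rpow_of_exponent_ge h0 hε1 hτt

/-- a family which is geometrically small near `z` -/
def GeomAt (c : ℤ → ℂ → ℂ) (z : ℂ) : Prop :=
  ∃ r > 0, ∃ θ : ℝ, 0 < θ ∧ θ < 1 ∧ ∃ C : ℝ, 0 ≤ C ∧ ∀ n : ℤ, ∀ w ∈ ball z r, ‖c n w‖ ≤ C * θ ^ n.natAbs

/-- propagation of geometric smallness on a preconnected open set -/
theorem geom_propagate {c : ℤ → ℂ → ℂ} {U : Set ℂ} (hUc : IsPreconnected U)
    (hd : ∀ n, DifferentiableOn ℂ (c n) U)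
    (hb : ∀ z ∈ U, ∃ r > 0, ∃ M : ℝ, ball z r ⊆ U ∧ ∀ n : ℤ, ∀ w ∈ ball z r, ‖c n w‖ ≤ M)
    {z₁ : ℂ} (hz₁ : z₁ ∈ U) (h₁ : GeomAt c z₁) : ∀ z ∈ U, GeomAt c z := by
  have hopen : IsOpen {z | GeomAt c z} := by
    rw [Metric.isOpen_iff]
    rintro z ⟨r, hr, θ, hθ0, hθ1, C, hC, h⟩
    refine ⟨r / 2, by positivity, fun w hw => ⟨r / 2, by positivity, θ, hθ0, hθ1, C, hC, fun n v hv => ?_⟩⟩
    refine h n v ?_
    rw [mem_ball] at hw hv ⊢
    calc dist v z ≤ dist v w + dist w z := dist_triangle _ _ _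
      _ < r := by linarith
  refine hUc.subset_of_closure_inter_subset hopen ⟨z₁, hz₁, h₁⟩ ?_
  rintro z ⟨hzc, hzU⟩
  obtain ⟨R, hR, M₀, hRU, hM⟩ := hb z hzU
  obtain ⟨M, hMdef⟩ : ∃ M : ℝ, M = max M₀ 0 + 1 := ⟨_, rfl⟩
  have hMpos : 0 < M := by rw [hMdef]; positivity
  have hM' : ∀ n : ℤ, ∀ w ∈ ball z R, ‖c n w‖ ≤ M := fun n w hw =>
    (hM n w hw).trans (by rw [hMdef]; linarith [le_max_left M₀ 0])
  -- a good point close to `z`
  obtain ⟨z', hz'⟩ : ∃ z', GeomAt c z' ∧ dist z z' < R / 8 := by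
    rw [Metric.mem_closure_iff] at hzc
    obtain ⟨z', h, h'⟩ := hzc (R / 8) (by positivity)
    exact ⟨z', h, h'⟩
  obtain ⟨⟨r, hr, θ, hθ0, hθ1, C, hC, hdec⟩, hdist⟩ := hz'
  obtain ⟨r₁, hr₁⟩ : ∃ r₁ : ℝ, r₁ = min (r / 2) (R / 8) := ⟨_, rfl⟩
  have hr₁0 : 0 < r₁ := by rw [hr₁]; positivity
  have hr₁r : r₁ < r := by
    rw [hr₁]
    exact (min_le_left _ _).trans_lt (by linarith)
  have hr₁R : r₁ ≤ R / 4 := by
    rw [hr₁]
    exact (min_le_right _ _).trans (by linarith)
  obtain ⟨τ, hτ0, hτ1, hcirc⟩ := three_circles hr₁0 hr₁R (show R / 4 < R / 2 by linarith)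
  have hsub : ball z' (3 * R / 4) ⊆ ball z R := by
    intro w hw
    rw [mem_ball] at hw ⊢
    rw [dist_comm] at hdist
    calc dist w z ≤ dist w z' + dist z' z := dist_triangle _ _ _
      _ < R := by linarith
  have hθτ0 : 0 < θ ^ τ := Real.rpow_pos_of_pos hθ0 _
  have hθτ1 : θ ^ τ < 1 := Real.rpow_lt_one hθ0.le hθ1 hτ0
  obtain ⟨D, hD⟩ : ∃ D : ℝ, D = max M C := ⟨_, rfl⟩
  have hD0 : 0 < D := by rw [hD]; exact hMpos.trans_le (le_max_left _ _)
  refine ⟨R / 8, by positivity, θ ^ τ, hθτ0, hθτ1, D, hD0.le, fun n w hw => ?_⟩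
  have h := hcirc (c n) z' (3 * R / 4) D (θ ^ n.natAbs) (by linarith) hD0.le (by positivity)
    (pow_le_one₀ hθ0.le hθ1.le) ((hd n).mono (hsub.trans hRU))
    (fun v hv => (hM' n v (hsub (closedBall_subset_ball (by linarith) hv))).trans
      (by rw [hD]; exact le_max_left _ _))
    (fun v hv => (hdec n v (closedBall_subset_ball hr₁r hv)).trans
      (mul_le_mul_of_nonneg_right (by rw [hD]; exact le_max_right _ _) (by positivity)))
    w (by
      rw [mem_closedBall]
      rw [mem_ball] at hw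
      calc dist w z' ≤ dist w z + dist z z' := dist_triangle _ _ _
        _ ≤ R / 4 := by linarith)
  refine h.trans (le_of_eq ?_)
  congr 1
  rw [← Real.rpow_natCast, ← Real.rpow_natCast, ← Real.rpow_mul hθ0.le, ← Real.rpow_mul hθ0.le, mul_comm]

end Pool.Agent.H6G3
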